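import Pool.Agent.T2H64.PI.Real
import Pool.Agent.Helper923.PNT

/-!
# Positive small linear forms in the even powers of `π`
-/

set_option autoImplicit false

namespace Pool.Agent.T2H64.PI

open Finset Filter

theorem sum_even_odd {M : Type*} [AddCommMonoid M] (f : ℕ → M) (h : ℕ) :
    ∑ j ∈ range (2 * h + 1), f j =
      ∑ g ∈ range (h + 1), f (2 * g) + ∑ g ∈ range h, f (2 * g + 1) := by
  induction h with
  | zero => simp
  | succ h ih =>
    rw [show 2 * (h + 1) + 1 = (2 * h + 1) + 1 + 1 by ring, sum_range_succ, sum_range_succ, ih,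
      sum_range_succ (fun g => f (2 * g)) (h + 1), sum_range_succ (fun g => f (2 * g + 1)) h,
      show 2 * (h + 1) = 2 * h + 1 + 1 by ring]
    abel

theorem negI_even (k : ℕ) : (-Complex.I) ^ (2 * k) = (((-1 : ℤ) ^ k : ℤ) : ℂ) := by
  rw [pow_mul]
  simp

theorem negI_odd (k : ℕ) : (-Complex.I) ^ (2 * k + 1) = (((-1 : ℤ) ^ k : ℤ) : ℂ) * (-Complex.I) := by
  rw [pow_succ, negI_even]

/-- the forms -/
theorem form (n h : ℕ) : ∃ X : ℕ → ℤ,
    (∀ g, |(X g : ℝ)| ≤ (2 * h).factorial * (Nat.lcmUpto (2 * n) : ℝ) ^ (2 * h) *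
      (((4 : ℝ) ^ n) ^ (2 * h + 1) * (2 * h + 1).factorial)) ∧
    ((2 * h).factorial : ℝ) * (Nat.lcmUpto (2 * n) : ℝ) ^ (2 * h) * FR n (2 * h) Real.pi =
      ∑ g ∈ range (h + 1), (X g : ℝ) * Real.pi ^ (2 * g) := by
  have hL : 1 ≤ Nat.lcmUpto (2 * n) := Nat.lcmUpto_pos _
  have hdvd : ∀ l k : ℤ, |l| ≤ n → |k| ≤ n → l ≠ k → (l - k) ∣ ((Nat.lcmUpto (2 * n) : ℕ) : ℤ) := by
    intro l k hl hk hlk
    rw [← Int.natAbs_dvd_natAbs]
    have h1 : (l - k).natAbs ≤ 2 * n := by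
      rw [abs_le] at hl hk
      omega
    have h2 : 0 < (l - k).natAbs := Int.natAbs_pos.2 (sub_ne_zero.2 hlk)
    simpa [Nat.lcmUpto] using Finset.dvd_lcm (f := id) (mem_Icc.2 ⟨h2, h1⟩)
  obtain ⟨Y, hY1, hY2⟩ := (FR_P hL hdvd (2 * h)).eval hL
  refine ⟨fun g => (-1) ^ (h - g) * Y (2 * g), ?_, ?_⟩
  · intro g
    push_cast
    rw [abs_mul, abs_pow, abs_neg, abs_one, one_pow, one_mul]
    exact hY1 (2 * g)
  · have h1 := congrArg Complex.re hY2
    rw [sum_even_odd, Complex.add_re, Complex.re_sum, Complex.re_sum] at h1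
    have h2 : ∑ g ∈ range h, ((Y (2 * g + 1) : ℂ) * (-Complex.I) ^ (2 * h - (2 * g + 1)) *
        (Real.pi : ℂ) ^ (2 * g + 1)).re = 0 := by
      refine Finset.sum_eq_zero fun g hg => ?_
      rw [mem_range] at hg
      rw [show 2 * h - (2 * g + 1) = 2 * (h - g - 1) + 1 by omega, negI_odd]
      have e : (Y (2 * g + 1) : ℂ) * ((((-1 : ℤ) ^ (h - g - 1) : ℤ) : ℂ) * (-Complex.I)) *
          (Real.pi : ℂ) ^ (2 * g + 1) =
          ((-(Y (2 * g + 1) * (-1) ^ (h - g - 1) * Real.pi ^ (2 * g + 1)) : ℝ) : ℂ) * Complex.I := by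
        push_cast
        ring
      rw [e, Complex.re_ofReal_mul, Complex.I_re, mul_zero]
    have h3 : ∀ g ∈ range (h + 1), ((Y (2 * g) : ℂ) * (-Complex.I) ^ (2 * h - 2 * g) *
        (Real.pi : ℂ) ^ (2 * g)).re = (((-1) ^ (h - g) * Y (2 * g) : ℤ) : ℝ) * Real.pi ^ (2 * g) := by
      intro g hg
      rw [mem_range] at hg
      rw [show 2 * h - 2 * g = 2 * (h - g) by omega, negI_even]
      have e : (Y (2 * g) : ℂ) * (((-1 : ℤ) ^ (h - g) : ℤ) : ℂ) * (Real.pi : ℂ) ^ (2 * g) =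
          (((((-1) ^ (h - g) * Y (2 * g) : ℤ) : ℝ) * Real.pi ^ (2 * g) : ℝ) : ℂ) := by
        push_cast
        ring
      rw [e, Complex.ofReal_re]
    rw [h2, add_zero, Finset.sum_congr rfl h3] at h1
    rw [← h1]
    have e : ((2 * h).factorial : ℂ) * ((Nat.lcmUpto (2 * n) : ℕ) : ℂ) ^ (2 * h) *
        ((FR n (2 * h) Real.pi : ℝ) : ℂ) =
        ((((2 * h).factorial : ℝ) * (Nat.lcmUpto (2 * n) : ℝ) ^ (2 * h) * FR n (2 * h) Real.pi : ℝ) : ℂ) := by
      push_cast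
      ring
    rw [e, Complex.ofReal_re]

theorem lcm_bound : ∃ C : ℝ, 1 ≤ C ∧ ∀ n : ℕ, (Nat.lcmUpto n : ℝ) ≤ C * Real.exp (1.01 * n) := by
  have h1 : ∀ᶠ x : ℝ in atTop, Chebyshev.psi x / x < 1.01 :=
    Pool.Agent.Helper923.PNT.psi_div_tendsto.eventually (gt_mem_nhds (by norm_num))
  obtain ⟨x0, hx0⟩ := eventually_atTop.1 h1
  obtain ⟨n0, hn0⟩ := exists_nat_gt (max x0 1)
  refine ⟨∑ n ∈ Finset.range (n0 + 1), (Nat.lcmUpto n : ℝ) + 1, ?_, ?_⟩
  · have : 0 ≤ ∑ n ∈ Finset.range (n0 + 1), (Nat.lcmUpto n : ℝ) :=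
      Finset.sum_nonneg fun i _ => Nat.cast_nonneg _
    linarith
  · intro n
    set S := ∑ n ∈ Finset.range (n0 + 1), (Nat.lcmUpto n : ℝ) with hS
    have hSn : 0 ≤ S := Finset.sum_nonneg fun i _ => Nat.cast_nonneg _
    have he : 1 ≤ Real.exp (1.01 * n) := by
      rw [← Real.exp_zero]; apply Real.exp_le_exp.2; positivity
    rcases le_or_gt n n0 with h | h
    · have h2 : (Nat.lcmUpto n : ℝ) ≤ S := by
        rw [hS]
        exact Finset.single_le_sum (f := fun n => (Nat.lcmUpto n : ℝ))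
          (fun i _ => Nat.cast_nonneg _) (Finset.mem_range.2 (by omega))
      nlinarith
    · have hn : max x0 1 < (n : ℝ) := hn0.trans (by exact_mod_cast h)
      have hn1 : (1 : ℝ) < n := lt_of_le_of_lt (le_max_right _ _) hn
      have h3 := hx0 n (le_of_lt (lt_of_le_of_lt (le_max_left _ _) hn))
      rw [div_lt_iff₀ (by linarith), Chebyshev.psi_eq_log_lcmUpto] at h3
      have h4 : (Nat.lcmUpto n : ℝ) ≤ Real.exp (1.01 * n) := by
        rw [← Real.log_le_iff_le_exp (by exact_mod_cast Nat.lcmUpto_pos n)]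
        exact h3.le
      nlinarith [Real.exp_pos (1.01 * (n:ℝ))]

/-- the forms, with exponential bounds; `m = 2 n (2 h + 1)` -/
theorem form2 (h : ℕ) : ∃ c₁ c₂ c₃ : ℝ, 0 < c₁ ∧ 0 < c₂ ∧ 0 < c₃ ∧ ∀ n : ℕ, ∃ (X : ℕ → ℤ) (G : ℝ),
    G = ∑ g ∈ range (h + 1), (X g : ℝ) * Real.pi ^ (2 * g) ∧
    c₁ * Real.exp (-(Real.log (2 * h + 1) * (2 * n * (2 * h + 1)))) ≤ G ∧
    G ≤ c₂ * Real.exp (-((Real.log (2 * h + 1) - Real.log Real.pi - 1.01) * (2 * n * (2 * h + 1)))) ∧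
    ∀ g, |(X g : ℝ)| ≤ c₃ * Real.exp ((1.01 + Real.log 2) * (2 * n * (2 * h + 1))) := by
  obtain ⟨C, hC1, hC⟩ := lcm_bound
  have hpi := Real.pi_pos
  have hf : (0 : ℝ) < (2 * h).factorial := by exact_mod_cast Nat.factorial_pos _
  have hf1 : (1 : ℝ) ≤ (2 * h).factorial := by exact_mod_cast Nat.factorial_pos _
  have hf' : (0 : ℝ) < (2 * h + 1).factorial := by exact_mod_cast Nat.factorial_pos _
  have hC0 : 0 < C := by linarith
  refine ⟨(Real.pi / (2 * (2 * h + 1))) ^ (2 * h), (2 * h).factorial * C ^ (2 * h) * Real.pi ^ (2 * h),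
    (2 * h).factorial * C ^ (2 * h) * (2 * h + 1).factorial, by positivity, by positivity,
    by positivity, fun n => ?_⟩
  obtain ⟨X, hX1, hX2⟩ := form n h
  have hn0 : (0 : ℝ) ≤ n := Nat.cast_nonneg n
  have hh0 : (0 : ℝ) ≤ h := Nat.cast_nonneg h
  have hL1 : (1 : ℝ) ≤ (Nat.lcmUpto (2 * n) : ℝ) := by exact_mod_cast Nat.lcmUpto_pos (2 * n)
  have hLh : (Nat.lcmUpto (2 * n) : ℝ) ^ (2 * h) ≤ C ^ (2 * h) * Real.exp (1.01 * (2 * n * (2 * h + 1))) := by
    have h1 := hC (2 * n)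
    calc (Nat.lcmUpto (2 * n) : ℝ) ^ (2 * h) ≤ (C * Real.exp (1.01 * ((2 * n : ℕ) : ℝ))) ^ (2 * h) :=
          pow_le_pow_left₀ (by positivity) h1 _
      _ = C ^ (2 * h) * Real.exp (((2 * h : ℕ) : ℝ) * (1.01 * ((2 * n : ℕ) : ℝ))) := by
          rw [mul_pow, ← Real.exp_nat_mul]
      _ ≤ _ := by
          apply mul_le_mul_of_nonneg_left _ (by positivity)
          apply Real.exp_le_exp.2
          push_cast
          nlinarith [mul_nonneg hn0 hh0]
  have hE1 : ((1 / (2 * (h : ℝ) + 1)) ^ (2 * h + 1)) ^ (2 * n) =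
      Real.exp (-(Real.log (2 * h + 1) * (2 * n * (2 * h + 1)))) := by
    rw [← pow_mul, ← Real.exp_log (show (0 : ℝ) < 1 / (2 * h + 1) by positivity), ← Real.exp_nat_mul,
      one_div, Real.log_inv]
    congr 1
    push_cast
    ring
  refine ⟨X, _, rfl, ?_, ?_, ?_⟩
  · rw [← hX2]
    have h1 := FR_ge n (2 * h) Real.pi hpi.le le_rfl
    have h2 : (Real.pi / (2 * (((2 * h : ℕ) : ℝ) + 1))) ^ (2 * h) *
        ((Real.pi / (Real.pi * (((2 * h : ℕ) : ℝ) + 1))) ^ (2 * h + 1)) ^ (2 * n) =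
        (Real.pi / (2 * (2 * h + 1))) ^ (2 * h) *
        Real.exp (-(Real.log (2 * h + 1) * (2 * n * (2 * h + 1)))) := by
      rw [← hE1]
      push_cast
      congr 3
      field_simp
    rw [h2] at h1
    have h3 := FR_nonneg n (2 * h) Real.pi hpi.le
    have h4 : (1 : ℝ) ≤ ((2 * h).factorial : ℝ) * (Nat.lcmUpto (2 * n) : ℝ) ^ (2 * h) :=
      one_le_mul_of_one_le_of_one_le hf1 (one_le_pow₀ hL1)
    calc _ ≤ FR n (2 * h) Real.pi := h1
      _ ≤ _ := le_mul_of_one_le_left h3 h4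
  · rw [← hX2]
    have h1 := FR_le n (2 * h) Real.pi hpi.le
    have h3 := FR_nonneg n (2 * h) Real.pi hpi.le
    have h2 : Real.pi ^ (2 * h) * ((Real.pi / (((2 * h : ℕ) : ℝ) + 1)) ^ (2 * h + 1)) ^ (2 * n) =
        Real.pi ^ (2 * h) *
        Real.exp (-((Real.log (2 * h + 1) - Real.log Real.pi) * (2 * n * (2 * h + 1)))) := by
      congr 1
      rw [← pow_mul, ← Real.exp_log (show (0 : ℝ) < Real.pi / (((2 * h : ℕ) : ℝ) + 1) by positivity),
        ← Real.exp_nat_mul, Real.log_div hpi.ne' (by positivity)]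
      congr 1
      push_cast
      ring
    rw [h2] at h1
    calc ((2 * h).factorial : ℝ) * (Nat.lcmUpto (2 * n) : ℝ) ^ (2 * h) * FR n (2 * h) Real.pi
        ≤ ((2 * h).factorial : ℝ) * (C ^ (2 * h) * Real.exp (1.01 * (2 * n * (2 * h + 1)))) *
          (Real.pi ^ (2 * h) *
          Real.exp (-((Real.log (2 * h + 1) - Real.log Real.pi) * (2 * n * (2 * h + 1))))) := by
          gcongr
      _ = (2 * h).factorial * C ^ (2 * h) * Real.pi ^ (2 * h) *
          (Real.exp (1.01 * (2 * n * (2 * h + 1))) *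
          Real.exp (-((Real.log (2 * h + 1) - Real.log Real.pi) * (2 * n * (2 * h + 1))))) := by ring
      _ = _ := by
          rw [← Real.exp_add]
          congr 2
          ring
  · intro g
    refine (hX1 g).trans ?_
    have h1 : (((4 : ℝ) ^ n) ^ (2 * h + 1)) = Real.exp (Real.log 2 * (2 * n * (2 * h + 1))) := by
      rw [show (4 : ℝ) = 2 ^ 2 by norm_num, ← pow_mul, ← pow_mul]
      nth_rewrite 1 [← Real.exp_log (show (0 : ℝ) < 2 by norm_num)]
      rw [← Real.exp_nat_mul]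
      congr 1
      push_cast
      ring
    rw [h1]
    calc ((2 * h).factorial : ℝ) * (Nat.lcmUpto (2 * n) : ℝ) ^ (2 * h) *
          (Real.exp (Real.log 2 * (2 * n * (2 * h + 1))) * (2 * h + 1).factorial)
        ≤ ((2 * h).factorial : ℝ) * (C ^ (2 * h) * Real.exp (1.01 * (2 * n * (2 * h + 1)))) *
          (Real.exp (Real.log 2 * (2 * n * (2 * h + 1))) * (2 * h + 1).factorial) := by gcongr
      _ = (2 * h).factorial * C ^ (2 * h) * (2 * h + 1).factorial *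
          (Real.exp (1.01 * (2 * n * (2 * h + 1))) * Real.exp (Real.log 2 * (2 * n * (2 * h + 1)))) := by
          ring
      _ = _ := by
          rw [← Real.exp_add]
          congr 2
          ring

end Pool.Agent.T2H64.PI
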