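import Pool.Agent.T2H64.PI.Form

/-!
# Some `X π ^ (2 g)`, `g ≤ h`, is not close to an integer
-/

set_option autoImplicit false

namespace Pool.Agent.T2H64.PI

open Finset Filter

theorem key (ε : ℝ) (hε : 0 < ε) (h : ℕ)
    (hh : 2.02 + Real.log 2 + Real.log Real.pi < ε * (Real.log (2 * h + 1) - Real.log Real.pi - 1.01)) :
    ∃ T₀ : ℝ, ∀ T : ℝ, T₀ ≤ T → ∃ g ≤ h, ∀ a : ℤ,
      Real.exp (-(ε * T)) ≤ |Real.exp T * Real.pi ^ (2 * g) - a| := by
  obtain ⟨c₁, c₂, c₃, hc₁, hc₂, hc₃, hform⟩ := form2 h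
  have hpi := Real.pi_pos
  have hl2 : 0 < Real.log 2 := Real.log_pos (by norm_num)
  have hlpi : 0 < Real.log Real.pi := Real.log_pos (by linarith [Real.pi_gt_three])
  have hh0 : (0 : ℝ) ≤ h := Nat.cast_nonneg h
  obtain ⟨A, hA⟩ : ∃ A, A = Real.log (2 * (h : ℝ) + 1) := ⟨_, rfl⟩
  obtain ⟨b, hb⟩ : ∃ b, b = A - Real.log Real.pi - 1.01 := ⟨_, rfl⟩
  obtain ⟨l, hl⟩ : ∃ l, l = 1.01 + Real.log 2 := ⟨_, rfl⟩
  rw [← hA, ← hb] at hh
  have hb0 : 0 < b := by
    by_contra hcon
    push Not at hcon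
    have : ε * b ≤ 0 := mul_nonpos_of_nonneg_of_nonpos hε.le hcon
    linarith
  have hA0 : 0 ≤ A := by rw [hA]; exact Real.log_nonneg (by linarith)
  have hl0 : 0 < l := by rw [hl]; linarith
  have hcond : l + A < (1 + ε) * b := by
    have e : (1 + ε) * b = b + ε * b := by ring
    rw [e, hl]
    linarith
  obtain ⟨M, hM⟩ : ∃ M : ℝ, M = 2 * (2 * h + 1) := ⟨_, rfl⟩
  have hM0 : 0 < M := by rw [hM]; positivity
  obtain ⟨L, hL⟩ : ∃ L, L = Real.log (4 * c₂) := ⟨_, rfl⟩
  have hγ : 0 < (1 + ε) - (l + A) / b := by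
    rw [sub_pos, div_lt_iff₀ hb0]
    exact hcond
  obtain ⟨K, hK⟩ : ∃ K, K = (l + A) * (L / b + M) - Real.log c₁ + Real.log ((h + 1) * c₃) + 1 := ⟨_, rfl⟩
  refine ⟨max (-L) (K / ((1 + ε) - (l + A) / b)), fun T hT => ?_⟩
  have hT1 : 0 ≤ T + L := by linarith [le_trans (le_max_left _ _) hT]
  have hT2 : K ≤ ((1 + ε) - (l + A) / b) * T := by
    have := le_trans (le_max_right _ _) hT
    rw [div_le_iff₀ hγ] at this
    linarith
  by_contra hcon
  push Not at hcon
  choose! a ha using hcon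
  obtain ⟨n, hn⟩ : ∃ n, n = ⌈(T + L) / (b * M)⌉₊ := ⟨_, rfl⟩
  obtain ⟨X, G, hG, hG1, hG2, hX⟩ := hform n
  obtain ⟨m, hm⟩ : ∃ m : ℝ, m = 2 * n * (2 * h + 1) := ⟨_, rfl⟩
  rw [← hm] at hG1 hG2
  rw [← hA] at hG1 hG2
  rw [← hb] at hG2
  rw [← hm, ← hl] at hX
  have hmM : m = n * M := by rw [hm, hM]; ring
  have hm1 : T + L ≤ b * m := by
    have h1 : (T + L) / (b * M) ≤ n := by rw [hn]; exact Nat.le_ceil _
    rw [div_le_iff₀ (by positivity)] at h1
    rw [hmM]
    linarith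
  have hm2 : m ≤ (T + L) / b + M := by
    have h1 : (n : ℝ) < (T + L) / (b * M) + 1 := by
      rw [hn]; exact Nat.ceil_lt_add_one (by positivity)
    have h2 : (T + L) / (b * M) * M = (T + L) / b := by field_simp
    rw [hmM]
    nlinarith
  -- size of the form
  have hY1 : Real.exp T * G ≤ 1 / 4 := by
    calc Real.exp T * G ≤ Real.exp T * (c₂ * Real.exp (-(b * m))) :=
          mul_le_mul_of_nonneg_left hG2 (Real.exp_pos _).le
      _ = c₂ * Real.exp (T - b * m) := by rw [sub_eq_add_neg, Real.exp_add]; ring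
      _ ≤ c₂ * Real.exp (-L) := by
          apply mul_le_mul_of_nonneg_left _ hc₂.le
          apply Real.exp_le_exp.2
          linarith
      _ = 1 / 4 := by
          rw [Real.exp_neg, hL, Real.exp_log (by positivity)]
          field_simp
  have hYE : (h + 1) * (c₃ * Real.exp (l * m)) * Real.exp (-(ε * T)) < Real.exp T * G := by
    have h1 : Real.exp T * (c₁ * Real.exp (-(A * m))) ≤ Real.exp T * G :=
      mul_le_mul_of_nonneg_left hG1 (Real.exp_pos _).le
    refine lt_of_lt_of_le ?_ h1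
    have h2 : Real.exp T * (c₁ * Real.exp (-(A * m))) = Real.exp (Real.log c₁ + T - A * m) := by
      rw [sub_eq_add_neg, Real.exp_add, Real.exp_add, Real.exp_log hc₁]
      ring
    have h3 : (h + 1) * (c₃ * Real.exp (l * m)) * Real.exp (-(ε * T)) =
        Real.exp (Real.log ((h + 1) * c₃) + l * m - ε * T) := by
      rw [sub_eq_add_neg, Real.exp_add, Real.exp_add, Real.exp_log (by positivity)]
      ring
    rw [h2, h3]
    apply Real.exp_lt_exp.2
    have h4 : (l + A) * m ≤ (l + A) * ((T + L) / b + M) :=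
      mul_le_mul_of_nonneg_left hm2 (by linarith)
    have h5 : (l + A) * ((T + L) / b + M) = (l + A) / b * T + (l + A) * (L / b + M) := by
      field_simp
      ring
    rw [hK] at hT2
    have h6 : ((1 + ε) - (l + A) / b) * T = T + ε * T - (l + A) / b * T := by ring
    rw [h6] at hT2
    rw [h5] at h4
    have h7 : (l + A) * m = l * m + A * m := by ring
    linarith
  -- the integer
  have herr : |Real.exp T * G - ((∑ g ∈ range (h + 1), X g * a g : ℤ) : ℝ)| ≤
      (h + 1) * (c₃ * Real.exp (l * m)) * Real.exp (-(ε * T)) := by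
    have e1 : Real.exp T * G - ((∑ g ∈ range (h + 1), X g * a g : ℤ) : ℝ) =
        ∑ g ∈ range (h + 1), (X g : ℝ) * (Real.exp T * Real.pi ^ (2 * g) - a g) := by
      rw [hG]
      push_cast
      rw [Finset.mul_sum, ← Finset.sum_sub_distrib]
      refine Finset.sum_congr rfl fun g _ => ?_
      ring
    rw [e1]
    refine (Finset.abs_sum_le_sum_abs _ _).trans ?_
    have h1 : ∀ g ∈ range (h + 1), |(X g : ℝ) * (Real.exp T * Real.pi ^ (2 * g) - a g)| ≤
        (c₃ * Real.exp (l * m)) * Real.exp (-(ε * T)) := by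
      intro g hg
      rw [abs_mul]
      exact mul_le_mul (hX g) (ha g (by rw [mem_range] at hg; omega)).le (abs_nonneg _) (by positivity)
    refine (Finset.sum_le_sum h1).trans ?_
    rw [sum_const, card_range, nsmul_eq_mul]
    push_cast
    linarith
  have h1 := abs_le.1 herr
  obtain ⟨Z, hZ⟩ : ∃ Z : ℤ, Z = ∑ g ∈ range (h + 1), X g * a g := ⟨_, rfl⟩
  rw [← hZ] at h1
  have h2 : (0 : ℝ) < Z := by linarith [h1.2]
  have h3 : (Z : ℝ) < 1 := by linarith [h1.1]
  have h4 : 0 < Z := by exact_mod_cast h2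
  have h5 : Z < 1 := by exact_mod_cast h3
  omega

end Pool.Agent.T2H64.PI
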