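import Mathlib

/-!
# Convolutions of exponential polynomials
-/

set_option autoImplicit false

namespace Pool.Agent.T2H64.PI

open Finset Complex

/-- `(y ^ j / j!) e ^ (i l y)` -/
noncomputable def phi (l : ℤ) (j : ℕ) (y : ℝ) : ℂ :=
  (y : ℂ) ^ j / (j.factorial : ℂ) * exp (I * l * y)

/-- the convolution with `e ^ (i k y)` -/
noncomputable def conv (k : ℤ) (f : ℝ → ℂ) (y : ℝ) : ℂ :=
  ∫ u in (0 : ℝ)..y, exp (I * k * (y - u)) * f u

theorem phi_cont (l : ℤ) (j : ℕ) : Continuous (phi l j) := by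
  unfold phi
  fun_prop

theorem phi_zero_succ (l : ℤ) (j : ℕ) : phi l (j + 1) 0 = 0 := by
  simp [phi]

theorem phi_zero_zero (l : ℤ) : phi l 0 0 = 1 := by
  simp [phi]

theorem hasDeriv_phi_succ (l : ℤ) (j : ℕ) (y : ℝ) :
    HasDerivAt (phi l (j + 1)) (phi l j y + I * l * phi l (j + 1) y) y := by
  have h0 : HasDerivAt (fun t : ℝ => (t : ℂ)) 1 y := ofRealCLM.hasDerivAt
  have h1 : HasDerivAt (fun t : ℝ => (t : ℂ) ^ (j + 1) / ((j + 1).factorial : ℂ))
      (((j + 1 : ℕ) : ℂ) * (y : ℂ) ^ j * 1 / ((j + 1).factorial : ℂ)) y := by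
    have := (h0.pow (j + 1)).div_const ((j + 1).factorial : ℂ)
    simpa using this
  have h2 : HasDerivAt (fun t : ℝ => exp (I * l * t)) (exp (I * l * y) * (I * l * 1)) y :=
    (h0.const_mul (I * l)).cexp
  have h3 := h1.mul h2
  have e : ((j + 1 : ℕ) : ℂ) * (y : ℂ) ^ j * 1 / ((j + 1).factorial : ℂ) =
      (y : ℂ) ^ j / (j.factorial : ℂ) := by
    rw [Nat.factorial_succ]
    have h4 : (j.factorial : ℂ) ≠ 0 := by exact_mod_cast Nat.factorial_ne_zero j
    have h5 : ((j + 1 : ℕ) : ℂ) ≠ 0 := by exact_mod_cast Nat.succ_ne_zero j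
    push_cast at h5 ⊢
    field_simp
  rw [e] at h3
  refine h3.congr_deriv ?_
  unfold phi
  ring

theorem hasDeriv_phi_zero (l : ℤ) (y : ℝ) :
    HasDerivAt (phi l 0) (I * l * phi l 0 y) y := by
  have h0 : HasDerivAt (fun t : ℝ => (t : ℂ)) 1 y := ofRealCLM.hasDerivAt
  have h2 : HasDerivAt (fun t : ℝ => exp (I * l * t)) (exp (I * l * y) * (I * l * 1)) y :=
    (h0.const_mul (I * l)).cexp
  have h3 := h2.const_mul ((1 : ℂ) / ((Nat.factorial 0 : ℕ) : ℂ))
  have e : phi l 0 = fun t : ℝ => (1 : ℂ) / ((Nat.factorial 0 : ℕ) : ℂ) * exp (I * l * t) := by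
    funext t
    simp [phi]
  rw [e]
  refine h3.congr_deriv ?_
  ring

theorem hasDeriv_ker (k : ℤ) (y u : ℝ) :
    HasDerivAt (fun t : ℝ => exp (I * k * (y - t))) (-(I * k) * exp (I * k * (y - u))) u := by
  have h0 : HasDerivAt (fun t : ℝ => (t : ℂ)) 1 u := ofRealCLM.hasDerivAt
  have h1 : HasDerivAt (fun t : ℝ => I * k * ((y : ℂ) - t)) (I * k * (-1)) u :=
    (h0.const_sub (y : ℂ)).const_mul (I * k)
  refine h1.cexp.congr_deriv ?_
  ring

theorem ker_cont (k : ℤ) (y : ℝ) (f : ℝ → ℂ) (hf : Continuous f) :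
    Continuous (fun u : ℝ => exp (I * k * (y - u)) * f u) := by
  fun_prop

theorem conv_same (k : ℤ) (j : ℕ) : conv k (phi k j) = phi k (j + 1) := by
  funext y
  have h1 : ∀ u ∈ Set.uIcc (0 : ℝ) y, HasDerivAt (fun t : ℝ => exp (I * k * (y - t)) * phi k (j + 1) t)
      (exp (I * k * (y - u)) * phi k j u) u := by
    intro u _
    refine ((hasDeriv_ker k y u).mul (hasDeriv_phi_succ k j u)).congr_deriv ?_
    ring
  have h2 := intervalIntegral.integral_eq_sub_of_hasDerivAt h1
    ((ker_cont k y _ (phi_cont k j)).intervalIntegrable _ _)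
  unfold conv
  rw [h2, phi_zero_succ]
  simp

theorem conv_zero (l k : ℤ) (hlk : l ≠ k) (y : ℝ) :
    conv k (phi l 0) y = (phi l 0 y - phi k 0 y) / (I * (l - k)) := by
  have h1 : ∀ u ∈ Set.uIcc (0 : ℝ) y, HasDerivAt (fun t : ℝ => exp (I * k * (y - t)) * phi l 0 t)
      (I * (l - k) * (exp (I * k * (y - u)) * phi l 0 u)) u := by
    intro u _
    refine ((hasDeriv_ker k y u).mul (hasDeriv_phi_zero l u)).congr_deriv ?_
    ring
  have h2 := intervalIntegral.integral_eq_sub_of_hasDerivAt h1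
    ((continuous_const.mul (ker_cont k y _ (phi_cont l 0))).intervalIntegrable _ _)
  rw [intervalIntegral.integral_const_mul] at h2
  have h3 : (I * ((l : ℂ) - k)) ≠ 0 := by
    apply mul_ne_zero I_ne_zero
    rw [sub_ne_zero]
    exact_mod_cast hlk
  unfold conv
  rw [eq_div_iff h3, mul_comm, h2, phi_zero_zero]
  simp [phi]

theorem conv_succ (l k : ℤ) (hlk : l ≠ k) (j : ℕ) (y : ℝ) :
    conv k (phi l (j + 1)) y = (phi l (j + 1) y - conv k (phi l j) y) / (I * (l - k)) := by
  have h1 : ∀ u ∈ Set.uIcc (0 : ℝ) y,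
      HasDerivAt (fun t : ℝ => exp (I * k * (y - t)) * phi l (j + 1) t)
      (I * (l - k) * (exp (I * k * (y - u)) * phi l (j + 1) u) + exp (I * k * (y - u)) * phi l j u) u := by
    intro u _
    refine ((hasDeriv_ker k y u).mul (hasDeriv_phi_succ l j u)).congr_deriv ?_
    ring
  have hA : Continuous (fun u : ℝ => I * ((l : ℂ) - k) * (exp (I * k * (y - u)) * phi l (j + 1) u)) :=
    continuous_const.mul (ker_cont k y _ (phi_cont l (j + 1)))
  have hB := ker_cont k y _ (phi_cont l j)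
  have h2 := intervalIntegral.integral_eq_sub_of_hasDerivAt h1
    ((hA.add hB).intervalIntegrable _ _)
  rw [intervalIntegral.integral_add (hA.intervalIntegrable _ _) (hB.intervalIntegrable _ _),
    intervalIntegral.integral_const_mul] at h2
  have h3 : (I * ((l : ℂ) - k)) ≠ 0 := by
    apply mul_ne_zero I_ne_zero
    rw [sub_ne_zero]
    exact_mod_cast hlk
  have h4 : exp (I * k * (y - y)) * phi l (j + 1) y - exp (I * k * (y - (0 : ℝ))) * phi l (j + 1) 0 =
      phi l (j + 1) y := by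
    rw [phi_zero_succ]
    simp
  rw [h4] at h2
  unfold conv
  rw [eq_div_iff h3, eq_sub_iff_add_eq, ← h2]
  ring

/-- exponential polynomials with frequencies at most `n` and controlled coefficients -/
inductive P (n L D : ℕ) : ℝ → (ℝ → ℂ) → Prop
  | basis (l : ℤ) (j : ℕ) (m : ℤ) (b : ℝ) (hl : |l| ≤ n) (hj : j ≤ D)
      (hb : |(m : ℝ)| / (L : ℝ) ^ (D - j) ≤ b) :
      P n L D b (fun y => (m : ℂ) / (L : ℂ) ^ (D - j) * (-I) ^ (D - j) * phi l j y)
  | add (b₁ b₂ b : ℝ) (f g : ℝ → ℂ) (hf : P n L D b₁ f) (hg : P n L D b₂ g) (hb : b₁ + b₂ ≤ b) :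
      P n L D b (fun y => f y + g y)

variable {n L D : ℕ}

theorem P.cont {b : ℝ} {f : ℝ → ℂ} (h : P n L D b f) : Continuous f := by
  induction h with
  | basis l j m b hl hj hb => exact continuous_const.mul (phi_cont l j)
  | add b₁ b₂ b f g hf hg hb h1 h2 => exact h1.add h2

theorem P.nonneg {b : ℝ} {f : ℝ → ℂ} (h : P n L D b f) : 0 ≤ b := by
  induction h with
  | basis l j m b hl hj hb => exact le_trans (by positivity) hb
  | add b₁ b₂ b f g hf hg hb h1 h2 => linarith

theorem P.mono {b b' : ℝ} {f : ℝ → ℂ} (h : P n L D b f) (hb' : b ≤ b') : P n L D b' f := by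
  cases h with
  | basis l j m b hl hj hb => exact P.basis l j m b' hl hj (hb.trans hb')
  | add b₁ b₂ b f g hf hg hb => exact P.add b₁ b₂ b' f g hf hg (hb.trans hb')

theorem P.zero : P n L D 0 (fun _ => 0) := by
  have h := P.basis (n := n) (L := L) (D := D) 0 0 0 0 (by simp) (Nat.zero_le _) (by simp)
  have e : (fun y : ℝ => ((0 : ℤ) : ℂ) / (L : ℂ) ^ (D - 0) * (-I) ^ (D - 0) * phi 0 0 y) =
      fun _ => 0 := by
    funext y
    simp
  rw [e] at h
  exact h

theorem P.smul (c : ℤ) {b : ℝ} {f : ℝ → ℂ} (h : P n L D b f) :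
    P n L D (|(c : ℝ)| * b) (fun y => (c : ℂ) * f y) := by
  induction h with
  | basis l j m b hl hj hb =>
    have h1 := P.basis (n := n) (L := L) (D := D) l j (c * m) (|(c : ℝ)| * b) hl hj (by
      push_cast
      rw [abs_mul, mul_div_assoc]
      exact mul_le_mul_of_nonneg_left hb (abs_nonneg _))
    have e : (fun y : ℝ => (((c * m : ℤ) : ℂ)) / (L : ℂ) ^ (D - j) * (-I) ^ (D - j) * phi l j y) =
        fun y => (c : ℂ) * ((m : ℂ) / (L : ℂ) ^ (D - j) * (-I) ^ (D - j) * phi l j y) := by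
      funext y
      push_cast
      ring
    rw [e] at h1
    exact h1
  | add b₁ b₂ b f g hf hg hb h1 h2 =>
    have h3 := P.add _ _ (|(c : ℝ)| * b) _ _ h1 h2 (by
      rw [← mul_add]
      exact mul_le_mul_of_nonneg_left hb (abs_nonneg _))
    have e : (fun y : ℝ => (c : ℂ) * f y + (c : ℂ) * g y) = fun y => (c : ℂ) * (f y + g y) := by
      funext y
      ring
    rw [e] at h3
    exact h3

theorem P.sum {ι : Type*} (s : Finset ι) (b : ι → ℝ) (f : ι → ℝ → ℂ)
    (h : ∀ i ∈ s, P n L D (b i) (f i)) :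
    P n L D (∑ i ∈ s, b i) (fun y => ∑ i ∈ s, f i y) := by
  classical
  induction s using Finset.induction_on with
  | empty => simpa using P.zero (n := n) (L := L) (D := D)
  | insert a s ha ih =>
    have h1 := P.add _ _ (∑ i ∈ insert a s, b i) _ _ (h a (mem_insert_self a s))
      (ih fun i hi => h i (mem_insert_of_mem hi)) (by rw [sum_insert ha])
    have e : (fun y : ℝ => f a y + ∑ i ∈ s, f i y) = fun y => ∑ i ∈ insert a s, f i y := by
      funext y
      rw [sum_insert ha]
    rw [e] at h1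
    exact h1

theorem conv_add (k : ℤ) (f g : ℝ → ℂ) (hf : Continuous f) (hg : Continuous g) :
    conv k (fun y => f y + g y) = fun y => conv k f y + conv k g y := by
  funext y
  unfold conv
  rw [← intervalIntegral.integral_add ((ker_cont k y f hf).intervalIntegrable _ _)
    ((ker_cont k y g hg).intervalIntegrable _ _)]
  congr 1
  funext u
  ring

theorem conv_const (k : ℤ) (c : ℂ) (f : ℝ → ℂ) :
    conv k (fun y => c * f y) = fun y => c * conv k f y := by
  funext y
  unfold conv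
  rw [← intervalIntegral.integral_const_mul]
  congr 1
  funext u
  ring

theorem conv_basis (hL : 1 ≤ L) (hdvd : ∀ l k : ℤ, |l| ≤ n → |k| ≤ n → l ≠ k → (l - k) ∣ (L : ℤ))
    (k l : ℤ) (hk : |k| ≤ n) (hl : |l| ≤ n) (j : ℕ) : ∀ (m : ℤ) (b : ℝ), j ≤ D →
      |(m : ℝ)| / (L : ℝ) ^ (D - j) ≤ b →
      P n L (D + 1) (((j : ℝ) + 2) * b)
        (conv k (fun y => (m : ℂ) / (L : ℂ) ^ (D - j) * (-I) ^ (D - j) * phi l j y)) := by
  have hL0 : (0 : ℝ) < L := by exact_mod_cast hL
  have hLc : (L : ℂ) ≠ 0 := by exact_mod_cast hL0.ne'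
  by_cases hlk : l = k
  · subst hlk
    intro m b hj hb
    have hb0 : 0 ≤ b := le_trans (by positivity) hb
    rw [conv_const, conv_same]
    have e : D - j = D + 1 - (j + 1) := by omega
    rw [e] at hb ⊢
    refine P.basis l (j + 1) m _ hl (by omega) (hb.trans ?_)
    nlinarith [Nat.cast_nonneg (α := ℝ) j]
  · obtain ⟨q, hq⟩ := hdvd l k hl hk hlk
    have hlkc : ((l : ℂ) - k) ≠ 0 := by
      rw [sub_ne_zero]
      exact_mod_cast hlk
    have hqc : (L : ℂ) = ((l : ℂ) - k) * q := by exact_mod_cast hq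
    have hqr : (L : ℝ) = |(l : ℝ) - k| * |(q : ℝ)| := by
      rw [← abs_mul]
      have : (L : ℝ) = ((l : ℝ) - k) * q := by exact_mod_cast hq
      rw [← this, abs_of_pos hL0]
    have hqL : |(q : ℝ)| ≤ L := by
      have h1 : (1 : ℝ) ≤ |(l : ℝ) - k| := by
        have h2 : 1 ≤ |l - k| := Int.one_le_abs (sub_ne_zero.2 hlk)
        exact_mod_cast h2
      rw [hqr]
      nlinarith [abs_nonneg (q : ℝ)]
    -- division by `i (l - k)`
    have hdiv : ∀ (m : ℤ) (a : ℕ), a ≤ D → ∀ z : ℂ,
        (m : ℂ) / (L : ℂ) ^ (D - a) * (-I) ^ (D - a) * (z / (I * (l - k))) =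
        ((m * q : ℤ) : ℂ) / (L : ℂ) ^ (D + 1 - a) * (-I) ^ (D + 1 - a) * z := by
      intro m a ha z
      have e : D + 1 - a = (D - a) + 1 := by omega
      rw [e, pow_succ (L : ℂ), pow_succ (-I)]
      have h1 : z / (I * (l - k)) = (-I) * q / L * z := by
        rw [div_eq_iff (mul_ne_zero I_ne_zero hlkc)]
        have h2 : (-I) * q / L * z * (I * (l - k)) = -(I * I) * (((l : ℂ) - k) * q) / L * z := by ring
        rw [h2, ← hqc, I_mul_I]
        field_simp
      rw [h1]
      push_cast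
      field_simp
    have hsize : ∀ (m : ℤ) (a : ℕ) (b : ℝ), a ≤ D → |(m : ℝ)| / (L : ℝ) ^ (D - a) ≤ b →
        |((m * q : ℤ) : ℝ)| / (L : ℝ) ^ (D + 1 - a) ≤ b := by
      intro m a b ha hb
      have e : D + 1 - a = (D - a) + 1 := by omega
      rw [e, pow_succ]
      push_cast
      rw [abs_mul, mul_div_mul_comm]
      have h1 : |(q : ℝ)| / L ≤ 1 := by rw [div_le_one hL0]; exact hqL
      have h2 : 0 ≤ |(m : ℝ)| / (L : ℝ) ^ (D - a) := by positivity
      calc |(m : ℝ)| / (L : ℝ) ^ (D - a) * (|(q : ℝ)| / L) ≤ |(m : ℝ)| / (L : ℝ) ^ (D - a) * 1 :=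
            mul_le_mul_of_nonneg_left h1 h2
        _ ≤ b := by linarith
    induction j with
    | zero =>
      intro m b hj hb
      have h1 := P.basis (n := n) (L := L) (D := D + 1) l 0 (m * q) b hl (Nat.zero_le _)
        (hsize m 0 b hj hb)
      have h2 := P.basis (n := n) (L := L) (D := D + 1) k 0 (-(m * q)) b hk (Nat.zero_le _) (by
        have := hsize m 0 b hj hb
        push_cast at this ⊢
        rw [abs_neg]
        exact this)
      have h3 := P.add b b ((((0 : ℕ) : ℝ) + 2) * b) _ _ h1 h2 (by push_cast; linarith)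
      have e : (fun y : ℝ => ((m * q : ℤ) : ℂ) / (L : ℂ) ^ (D + 1 - 0) * (-I) ^ (D + 1 - 0) * phi l 0 y +
          ((-(m * q) : ℤ) : ℂ) / (L : ℂ) ^ (D + 1 - 0) * (-I) ^ (D + 1 - 0) * phi k 0 y) =
          conv k (fun y => (m : ℂ) / (L : ℂ) ^ (D - 0) * (-I) ^ (D - 0) * phi l 0 y) := by
        rw [conv_const]
        funext y
        rw [conv_zero l k hlk, hdiv m 0 hj]
        push_cast
        ring
      rw [e] at h3
      exact h3
    | succ j ih =>
      intro m b hj hb
      have h1 := P.basis (n := n) (L := L) (D := D + 1) l (j + 1) (m * q) b hl (by omega)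
        (hsize m (j + 1) b hj hb)
      have e0 : D + 1 - (j + 1) = D - j := by omega
      have h2 := ih (-(m * q)) b (by omega) (by
        have := hsize m (j + 1) b hj hb
        rw [e0] at this
        push_cast at this ⊢
        rw [abs_neg]
        exact this)
      have h3 := P.add _ _ ((((j + 1 : ℕ) : ℝ) + 2) * b) _ _ h1 h2 (by push_cast; linarith)
      have e : (fun y : ℝ => ((m * q : ℤ) : ℂ) / (L : ℂ) ^ (D + 1 - (j + 1)) * (-I) ^ (D + 1 - (j + 1)) *
          phi l (j + 1) y +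
          conv k (fun y => ((-(m * q) : ℤ) : ℂ) / (L : ℂ) ^ (D - j) * (-I) ^ (D - j) * phi l j y) y) =
          conv k (fun y => (m : ℂ) / (L : ℂ) ^ (D - (j + 1)) * (-I) ^ (D - (j + 1)) * phi l (j + 1) y) := by
        rw [conv_const, conv_const]
        funext y
        dsimp only
        rw [conv_succ l k hlk, hdiv m (j + 1) hj, e0]
        push_cast
        ring
      rw [e] at h3
      exact h3

/-- convolution with `e ^ (i k y)` -/
theorem P.conv (hL : 1 ≤ L) (hdvd : ∀ l k : ℤ, |l| ≤ n → |k| ≤ n → l ≠ k → (l - k) ∣ (L : ℤ))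
    (k : ℤ) (hk : |k| ≤ n) {b : ℝ} {f : ℝ → ℂ} (h : P n L D b f) :
    P n L (D + 1) (((D : ℝ) + 2) * b) (conv k f) := by
  induction h with
  | basis l j m b hl hj hb =>
    refine (conv_basis hL hdvd k l hk hl j m b hj hb).mono ?_
    have hb0 : 0 ≤ b := le_trans (by positivity) hb
    have : (j : ℝ) ≤ D := by exact_mod_cast hj
    exact mul_le_mul_of_nonneg_right (by linarith) hb0
  | add b₁ b₂ b f g hf hg hb h1 h2 =>
    rw [conv_add k f g hf.cont hg.cont]
    refine P.add _ _ _ _ _ h1 h2 ?_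
    rw [← mul_add]
    exact mul_le_mul_of_nonneg_left hb (by positivity)

theorem exp_int_pi (l : ℤ) : exp (I * l * (Real.pi : ℝ)) = ((l.negOnePow : ℤ) : ℂ) := by
  have h1 : I * (l : ℂ) * (Real.pi : ℝ) = l * (Real.pi * I) := by ring
  rw [h1, exp_int_mul, exp_pi_mul_I, Int.cast_negOnePow]

/-- the value at `π` -/
theorem P.eval {b : ℝ} {f : ℝ → ℂ} (hL : 1 ≤ L) (h : P n L D b f) :
    ∃ X : ℕ → ℤ, (∀ j, |(X j : ℝ)| ≤ D.factorial * (L : ℝ) ^ D * b) ∧
      (D.factorial : ℂ) * (L : ℂ) ^ D * f Real.pi =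
        ∑ j ∈ range (D + 1), (X j : ℂ) * (-I) ^ (D - j) * (Real.pi : ℂ) ^ j := by
  have hL0 : (0 : ℝ) < L := by exact_mod_cast hL
  have hLc : (L : ℂ) ≠ 0 := by exact_mod_cast hL0.ne'
  induction h with
  | basis l j m b hl hj hb =>
    obtain ⟨z, hz⟩ := Nat.factorial_dvd_factorial hj
    have hj0 : (j.factorial : ℝ) ≠ 0 := by exact_mod_cast Nat.factorial_ne_zero j
    have hjc : (j.factorial : ℂ) ≠ 0 := by exact_mod_cast Nat.factorial_ne_zero j
    refine ⟨fun i => if i = j then m * (L : ℤ) ^ j * z * (l.negOnePow : ℤ) else 0, ?_, ?_⟩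
    · intro i
      dsimp only
      have hb0 : 0 ≤ b := le_trans (by positivity) hb
      split_ifs
      · push_cast
        rw [abs_mul, abs_mul, abs_mul]
        have h1 : |((l.negOnePow : ℤ) : ℝ)| = 1 := by
          rcases Int.even_or_odd l with h | h
          · rw [Int.negOnePow_even l h]; simp
          · rw [Int.negOnePow_odd l h]; simp
        have h2 : |(L : ℝ) ^ j| = (L : ℝ) ^ j := abs_of_pos (by positivity)
        have h3 : |(z : ℝ)| = z := abs_of_nonneg (Nat.cast_nonneg z)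
        rw [h1, h2, h3, mul_one]
        have h4 : (z : ℝ) ≤ D.factorial := by
          have : z ≤ D.factorial := by
            rw [hz]
            exact Nat.le_mul_of_pos_left z (Nat.factorial_pos j)
          exact_mod_cast this
        have h5 : |(m : ℝ)| ≤ b * (L : ℝ) ^ (D - j) := by
          rw [div_le_iff₀ (by positivity)] at hb
          exact hb
        have h6 : (L : ℝ) ^ (D - j) * (L : ℝ) ^ j = (L : ℝ) ^ D := by
          rw [← pow_add]
          congr 1
          omega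
        calc |(m : ℝ)| * (L : ℝ) ^ j * z ≤ (b * (L : ℝ) ^ (D - j)) * (L : ℝ) ^ j * D.factorial := by
              gcongr
          _ = D.factorial * ((L : ℝ) ^ (D - j) * (L : ℝ) ^ j) * b := by ring
          _ = _ := by rw [h6]
      · simp only [Int.cast_zero, abs_zero]
        positivity
    · rw [Finset.sum_eq_single j]
      · simp only [if_true]
        unfold phi
        rw [exp_int_pi]
        have h6 : (L : ℂ) ^ D = (L : ℂ) ^ (D - j) * (L : ℂ) ^ j := by
          rw [← pow_add]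
          congr 1
          omega
        have h7 : (D.factorial : ℂ) = j.factorial * z := by exact_mod_cast hz
        rw [h6, h7]
        push_cast
        field_simp
      · intro i _ hi
        simp [hi]
      · intro hi
        exact absurd (mem_range.2 (by omega)) hi
  | add b₁ b₂ b f g hf hg hb h1 h2 =>
    obtain ⟨X, hX1, hX2⟩ := h1
    obtain ⟨Y, hY1, hY2⟩ := h2
    refine ⟨fun j => X j + Y j, ?_, ?_⟩
    · intro j
      push_cast
      refine (abs_add_le _ _).trans ((add_le_add (hX1 j) (hY1 j)).trans ?_)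
      rw [← mul_add]
      exact mul_le_mul_of_nonneg_left hb (by positivity)
    · rw [mul_add, hX2, hY2, ← Finset.sum_add_distrib]
      refine Finset.sum_congr rfl fun j _ => ?_
      push_cast
      ring

end Pool.Agent.T2H64.PI
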