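import Pool.Agent.T2H64.PI.Phi

/-!
# The convolution powers of `(2 sin (y / 2)) ^ (2 n)`
-/

set_option autoImplicit false

namespace Pool.Agent.T2H64.PI

open Finset

/-- `(2 sin (y / 2)) ^ (2 n)` -/
noncomputable def S (n : ℕ) (y : ℝ) : ℝ := (2 * Real.sin (y / 2)) ^ (2 * n)

/-- convolution powers -/
noncomputable def FR (n : ℕ) : ℕ → ℝ → ℝ
  | 0 => S n
  | D + 1 => fun y => ∫ u in (0 : ℝ)..y, S n (y - u) * FR n D u

theorem S_cont (n : ℕ) : Continuous (S n) := by
  unfold S
  fun_prop

theorem S_nonneg (n : ℕ) (y : ℝ) : 0 ≤ S n y := by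
  unfold S
  exact Even.pow_nonneg (even_two_mul n) _

theorem S_le (n : ℕ) (y : ℝ) : S n y ≤ y ^ (2 * n) := by
  unfold S
  rw [pow_mul, pow_mul]
  apply pow_le_pow_left₀ (by positivity)
  rw [← sq_abs, ← sq_abs y]
  apply pow_le_pow_left₀ (abs_nonneg _)
  rw [abs_mul, abs_of_pos (show (0 : ℝ) < 2 by norm_num)]
  have h1 : |Real.sin (y / 2)| ≤ |y / 2| := Real.abs_sin_le_abs
  rw [abs_div, abs_of_pos (show (0 : ℝ) < 2 by norm_num)] at h1
  linarith

theorem S_ge (n : ℕ) (y : ℝ) (h0 : 0 ≤ y) (h1 : y ≤ Real.pi) :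
    (2 / Real.pi * y) ^ (2 * n) ≤ S n y := by
  unfold S
  have hpi := Real.pi_pos
  apply pow_le_pow_left₀ (by positivity)
  have h2 := Real.mul_le_sin (show 0 ≤ y / 2 by linarith) (show y / 2 ≤ Real.pi / 2 by linarith)
  have h3 : 2 / Real.pi * y = 2 * (2 / Real.pi * (y / 2)) := by ring
  rw [h3]
  linarith

/-- the coefficients -/
def cc (n m : ℕ) : ℤ := (-1) ^ (n + m) * ((2 * n).choose m : ℤ)

theorem cc_abs (n m : ℕ) : |((cc n m : ℤ) : ℝ)| = (2 * n).choose m := by
  unfold cc
  push_cast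
  rw [abs_mul, abs_pow, abs_neg, abs_one, one_pow, one_mul]
  exact abs_of_nonneg (Nat.cast_nonneg _)

theorem S_expand (n : ℕ) (y : ℂ) :
    ((2 * Complex.sin (y / 2)) ^ (2 * n)) =
      ∑ m ∈ range (2 * n + 1), ((cc n m : ℤ) : ℂ) *
        Complex.exp (Complex.I * (((m : ℤ) - (n : ℤ) : ℤ) : ℂ) * y) := by
  have h1 : 2 * Complex.sin (y / 2) = (-Complex.I) *
      (Complex.exp (Complex.I * y / 2) + -Complex.exp (-(Complex.I * y / 2))) := by
    rw [Complex.sin]
    have e1 : -(y / 2) * Complex.I = -(Complex.I * y / 2) := by ring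
    have e2 : y / 2 * Complex.I = Complex.I * y / 2 := by ring
    rw [e1, e2]
    ring
  rw [h1, mul_pow, add_pow, Finset.mul_sum]
  refine Finset.sum_congr rfl fun m hm => ?_
  rw [mem_range] at hm
  have hm' : m ≤ 2 * n := by omega
  have h2 : (-Complex.I) ^ (2 * n) = (-1) ^ n := by
    rw [pow_mul]
    simp
  have h3 : Complex.exp (Complex.I * y / 2) ^ m * (-Complex.exp (-(Complex.I * y / 2))) ^ (2 * n - m) =
      (-1) ^ m * Complex.exp (Complex.I * (((m : ℤ) - (n : ℤ) : ℤ) : ℂ) * y) := by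
    rw [neg_pow (Complex.exp _), ← Complex.exp_nat_mul, ← Complex.exp_nat_mul]
    have h4 : ((-1 : ℂ)) ^ (2 * n - m) = (-1) ^ m := by
      have h5 : (-1 : ℂ) ^ (2 * n - m) * (-1) ^ m = 1 := by
        rw [← pow_add, Nat.sub_add_cancel hm', pow_mul]
        simp
      have h6 : (-1 : ℂ) ^ m * (-1) ^ m = 1 := by
        rw [← pow_add, ← two_mul, pow_mul]
        simp
      have h7 : (-1 : ℂ) ^ m ≠ 0 := by
        intro h
        rw [h] at h6
        simp at h6
      exact mul_right_cancel₀ h7 (h5.trans h6.symm)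
    rw [h4, mul_left_comm, ← Complex.exp_add]
    congr 2
    push_cast [Nat.cast_sub hm']
    ring
  rw [h2, h3]
  unfold cc
  push_cast
  rw [pow_add]
  ring

variable {n L : ℕ}

theorem FR_P (hL : 1 ≤ L)
    (hdvd : ∀ l k : ℤ, |l| ≤ n → |k| ≤ n → l ≠ k → (l - k) ∣ (L : ℤ)) (D : ℕ) :
    P n L D (((4 : ℝ) ^ n) ^ (D + 1) * (D + 1).factorial) (fun y => (FR n D y : ℂ)) := by
  have hsum : ∑ m ∈ range (2 * n + 1), |((cc n m : ℤ) : ℝ)| = (4 : ℝ) ^ n := by
    simp_rw [cc_abs]
    have h1 := Nat.sum_range_choose (2 * n)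
    rw [pow_mul] at h1
    norm_num at h1
    exact_mod_cast h1
  have habs : ∀ m ∈ range (2 * n + 1), |((m : ℤ) - (n : ℤ))| ≤ n := by
    intro m hm
    rw [mem_range] at hm
    rw [abs_le]
    constructor <;> omega
  induction D with
  | zero =>
    have h1 := P.sum (n := n) (L := L) (D := 0) (range (2 * n + 1)) (fun m => |((cc n m : ℤ) : ℝ)|)
      (fun m y => ((cc n m : ℤ) : ℂ) / (L : ℂ) ^ (0 - 0) * (-Complex.I) ^ (0 - 0) *
        phi ((m : ℤ) - (n : ℤ)) 0 y)
      (fun m hm => P.basis _ 0 (cc n m) _ (habs m hm) le_rfl (by simp))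
    rw [hsum] at h1
    have e : (fun y : ℝ => ∑ m ∈ range (2 * n + 1), ((cc n m : ℤ) : ℂ) / (L : ℂ) ^ (0 - 0) *
        (-Complex.I) ^ (0 - 0) * phi ((m : ℤ) - (n : ℤ)) 0 y) = fun y : ℝ => (FR n 0 y : ℂ) := by
      funext y
      have h2 : (FR n 0 y : ℂ) = (2 * Complex.sin ((y : ℂ) / 2)) ^ (2 * n) := by
        unfold FR S
        push_cast
        rfl
      rw [h2, S_expand]
      refine Finset.sum_congr rfl fun m _ => ?_
      simp [phi]
    rw [e] at h1
    simpa using h1
  | succ D ih =>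
    have hcont := ih.cont
    have h1 := P.sum (n := n) (L := L) (D := D + 1) (range (2 * n + 1))
      (fun m => |((cc n m : ℤ) : ℝ)| *
        (((D : ℝ) + 2) * (((4 : ℝ) ^ n) ^ (D + 1) * (D + 1).factorial)))
      (fun m y => ((cc n m : ℤ) : ℂ) * conv ((m : ℤ) - (n : ℤ)) (fun y => (FR n D y : ℂ)) y)
      (fun m hm => P.smul (cc n m) (P.conv hL hdvd _ (habs m hm) ih))
    rw [← Finset.sum_mul, hsum] at h1
    have e : (fun y : ℝ => ∑ m ∈ range (2 * n + 1), ((cc n m : ℤ) : ℂ) *
        conv ((m : ℤ) - (n : ℤ)) (fun y => (FR n D y : ℂ)) y) = fun y : ℝ => (FR n (D + 1) y : ℂ) := by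
      funext y
      unfold conv
      simp_rw [← intervalIntegral.integral_const_mul]
      rw [← intervalIntegral.integral_finsetSum]
      · have h2 : (FR n (D + 1) y : ℂ) = ∫ u in (0 : ℝ)..y, ((S n (y - u) * FR n D u : ℝ) : ℂ) := by
          rw [intervalIntegral.integral_ofReal]
          rfl
        rw [h2]
        congr 1
        funext u
        push_cast
        have h3 : (S n (y - u) : ℂ) = (2 * Complex.sin (((y : ℂ) - u) / 2)) ^ (2 * n) := by
          unfold S
          push_cast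
          rfl
        rw [h3, S_expand, Finset.sum_mul]
        refine Finset.sum_congr rfl fun m _ => ?_
        push_cast
        ring
      · intro m _
        exact (continuous_const.mul (ker_cont _ y _ hcont)).intervalIntegrable _ _
    rw [e] at h1
    refine h1.mono (le_of_eq ?_)
    rw [Nat.factorial_succ (D + 1), pow_succ _ (D + 1)]
    push_cast
    ring

theorem FR_cont (n D : ℕ) : Continuous (FR n D) := by
  have h : Continuous (fun y : ℝ => (FR n D y : ℂ)) := by
    refine (FR_P (n := n) (L := (2 * n).factorial) (Nat.factorial_pos _) ?_ D).cont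
    intro l k hl hk hlk
    rw [← Int.natAbs_dvd_natAbs]
    have h1 : (l - k).natAbs ≤ 2 * n := by
      rw [abs_le] at hl hk
      omega
    have h2 : 0 < (l - k).natAbs := Int.natAbs_pos.2 (sub_ne_zero.2 hlk)
    simpa using Nat.dvd_factorial h2 h1
  have h2 := Complex.continuous_re.comp h
  simpa [Function.comp_def] using h2

theorem FR_nonneg (n D : ℕ) (y : ℝ) (hy : 0 ≤ y) : 0 ≤ FR n D y := by
  induction D generalizing y with
  | zero => exact S_nonneg n y
  | succ D ih =>
    refine intervalIntegral.integral_nonneg hy fun u hu => ?_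
    exact mul_nonneg (S_nonneg n _) (ih u hu.1)

theorem amgm (N : ℕ) (s t : ℝ) (hs : 0 ≤ s) (ht : 0 ≤ t) :
    (((N : ℝ) + 1) * s - N * t) * t ^ N ≤ s ^ (N + 1) := by
  rcases ht.eq_or_lt with h | h
  · subst h
    rcases Nat.eq_zero_or_pos N with h0 | h0
    · subst h0
      simp
    · rw [zero_pow h0.ne', mul_zero]
      positivity
  · have h1 := one_add_mul_le_pow (show (-2 : ℝ) ≤ s / t - 1 by
      have : 0 ≤ s / t := by positivity
      linarith) (N + 1)
    have h2 : (1 + (s / t - 1)) ^ (N + 1) = s ^ (N + 1) / t ^ (N + 1) := by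
      rw [← div_pow]
      congr 1
      ring
    rw [h2, le_div_iff₀ (by positivity)] at h1
    refine le_trans (le_of_eq ?_) h1
    push_cast
    rw [pow_succ]
    field_simp
    ring

theorem FR_le (n D : ℕ) (y : ℝ) (hy : 0 ≤ y) :
    FR n D y ≤ y ^ D * ((y / (D + 1)) ^ (D + 1)) ^ (2 * n) := by
  induction D generalizing y with
  | zero =>
    simp only [FR]
    simpa using S_le n y
  | succ D ih =>
    have hb : ∀ u ∈ Set.uIoc (0 : ℝ) y, ‖S n (y - u) * FR n D u‖ ≤
        y ^ D * ((y / ((D + 1 : ℕ) + 1)) ^ (D + 1 + 1)) ^ (2 * n) := by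
      intro u hu
      rw [Set.uIoc_of_le hy] at hu
      have hu0 : 0 ≤ u := hu.1.le
      have hF := FR_nonneg n D u hu0
      rw [Real.norm_of_nonneg (mul_nonneg (S_nonneg n _) hF)]
      have h1 : S n (y - u) ≤ (y - u) ^ (2 * n) := S_le n _
      have h2 := ih u hu0
      have hyu : 0 ≤ y - u := by linarith [hu.2]
      have h3 : (y - u) * (u / (D + 1)) ^ (D + 1) ≤ (y / ((D + 1 : ℕ) + 1)) ^ (D + 1 + 1) := by
        have h4 := amgm (D + 1) (y / ((D + 1 : ℕ) + 1)) (u / (D + 1)) (by positivity) (by positivity)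
        refine le_trans (le_of_eq ?_) h4
        congr 1
        push_cast
        field_simp
      calc S n (y - u) * FR n D u ≤ (y - u) ^ (2 * n) * (u ^ D * ((u / (D + 1)) ^ (D + 1)) ^ (2 * n)) :=
            mul_le_mul h1 h2 hF (by positivity)
        _ = u ^ D * ((y - u) * (u / (D + 1)) ^ (D + 1)) ^ (2 * n) := by rw [mul_pow]; ring
        _ ≤ y ^ D * ((y / ((D + 1 : ℕ) + 1)) ^ (D + 1 + 1)) ^ (2 * n) := by
            apply mul_le_mul (pow_le_pow_left₀ hu0 hu.2 D)
              (pow_le_pow_left₀ (by positivity) h3 _) (by positivity) (by positivity)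
    have h := intervalIntegral.norm_integral_le_of_norm_le_const hb
    have h0 := FR_nonneg n (D + 1) y hy
    have h1 : ‖∫ u in (0 : ℝ)..y, S n (y - u) * FR n D u‖ = FR n (D + 1) y :=
      Real.norm_of_nonneg h0
    rw [h1, sub_zero, abs_of_nonneg hy] at h
    refine h.trans (le_of_eq ?_)
    rw [pow_succ y D]
    push_cast
    ring

theorem FR_ge (n D : ℕ) (y : ℝ) (hy : 0 ≤ y) (hy1 : y ≤ Real.pi) :
    (y / (2 * (D + 1))) ^ D * ((y / (Real.pi * (D + 1))) ^ (D + 1)) ^ (2 * n) ≤ FR n D y := by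
  have hpi := Real.pi_pos
  induction D generalizing y with
  | zero =>
    have h1 := S_ge n y hy hy1
    simp only [FR]
    refine le_trans ?_ h1
    simp only [Nat.cast_zero, zero_add, mul_one, pow_zero, pow_one, one_mul]
    apply pow_le_pow_left₀ (by positivity)
    rw [div_mul_eq_mul_div]
    apply div_le_div_of_nonneg_right _ hpi.le
    linarith
  | succ D ih =>
    obtain ⟨w, hw⟩ : ∃ w : ℝ, w = y / ((D : ℝ) + 2) := ⟨_, rfl⟩
    have hw0 : 0 ≤ w := by rw [hw]; positivity
    have hwy : w * ((D : ℝ) + 2) = y := by rw [hw]; field_simp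
    have hD0 : (0 : ℝ) ≤ D := Nat.cast_nonneg D
    have hwD : 0 ≤ w * D := by positivity
    have hcS : Continuous (fun u => S n (y - u) * FR n D u) :=
      ((S_cont n).comp (continuous_const.sub continuous_id)).mul (FR_cont n D)
    have h1 : ∫ u in (y - w)..(y - w / 2), S n (y - u) * FR n D u ≤
        ∫ u in (0 : ℝ)..y, S n (y - u) * FR n D u := by
      apply intervalIntegral.integral_mono_interval
      · nlinarith
      · linarith
      · linarith
      · filter_upwards [MeasureTheory.ae_restrict_mem measurableSet_Ioc] with u hu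
        exact mul_nonneg (S_nonneg n _) (FR_nonneg n D u hu.1.le)
      · exact hcS.intervalIntegrable _ _
    have h2 : ∫ u in (y - w)..(y - w / 2),
        ((w / 2) ^ D * ((w / Real.pi) ^ (D + 1 + 1)) ^ (2 * n)) ≤
        ∫ u in (y - w)..(y - w / 2), S n (y - u) * FR n D u := by
      apply intervalIntegral.integral_mono_on (by linarith)
        (continuous_const.intervalIntegrable _ _) (hcS.intervalIntegrable _ _)
      intro u hu
      have hu1 : w * (D + 1) ≤ u := by nlinarith [hu.1]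
      have hu0 : 0 ≤ u := le_trans (by positivity) hu1
      have hu2 : u ≤ y := by linarith [hu.2]
      have h3 := ih u hu0 (hu2.trans hy1)
      have h4 := S_ge n (y - u) (by linarith) (by linarith)
      have h5 : w / Real.pi ≤ 2 / Real.pi * (y - u) := by
        rw [div_mul_eq_mul_div]
        apply div_le_div_of_nonneg_right _ hpi.le
        linarith [hu.2]
      have h6 : w / 2 ≤ u / (2 * (D + 1)) := by
        rw [div_le_div_iff₀ (by norm_num) (by positivity)]
        linarith
      have h7 : w / Real.pi ≤ u / (Real.pi * (D + 1)) := by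
        rw [div_le_div_iff₀ hpi (by positivity)]
        nlinarith
      calc (w / 2) ^ D * ((w / Real.pi) ^ (D + 1 + 1)) ^ (2 * n)
          = (w / Real.pi) ^ (2 * n) * ((w / 2) ^ D * ((w / Real.pi) ^ (D + 1)) ^ (2 * n)) := by
            rw [pow_succ _ (D + 1), mul_pow]
            ring
        _ ≤ (2 / Real.pi * (y - u)) ^ (2 * n) *
            ((u / (2 * (D + 1))) ^ D * ((u / (Real.pi * (D + 1))) ^ (D + 1)) ^ (2 * n)) := by
            gcongr
        _ ≤ S n (y - u) * FR n D u := mul_le_mul h4 h3 (by positivity) (S_nonneg n _)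
    rw [intervalIntegral.integral_const, smul_eq_mul] at h2
    have h8 : FR n (D + 1) y = ∫ u in (0 : ℝ)..y, S n (y - u) * FR n D u := rfl
    rw [h8]
    refine le_trans (le_of_eq ?_) (h2.trans h1)
    have e1 : y / (2 * (((D + 1 : ℕ) : ℝ) + 1)) = w / 2 := by
      rw [hw]
      push_cast
      field_simp
      ring
    have e2 : y / (Real.pi * (((D + 1 : ℕ) : ℝ) + 1)) = w / Real.pi := by
      rw [hw]
      push_cast
      field_simp
      ring
    rw [e1, e2, pow_succ (w / 2) D]
    ring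

end Pool.Agent.T2H64.PI
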