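import Pool.Agent.T2H64.PI.Key
import Pool.Agent.T2H64.EN.Coc
import Pool.Agent.TH373.EN.SpanWin

/-!
# Powers of `π` and finite-dimensional spaces
-/

set_option autoImplicit false

namespace Pool.Agent.T2H64.PI

open Finset Filter

/-- iteration of the multipliers in a window -/
theorem iterR {x : ℕ → ℝ} (ρ : ℝ) (n : ℕ) (H : ℝ) (hH : 1 ≤ H) (W : ℕ)
    (hx : ∀ m, n ≤ m → m < n + W → ∃ (p q : ℤ), p ≠ 0 ∧ q ≠ 0 ∧
      |(p : ℝ)| ≤ H ∧ |(q : ℝ)| ≤ H ∧ q * x (m + 1) = p * (ρ * x m)) :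
    ∃ (Q : ℤ) (g : ℕ → ℤ), Q ≠ 0 ∧ |(Q : ℝ)| ≤ H ^ W ∧ (∀ j ≤ W, g j ≠ 0) ∧
      (∀ j ≤ W, |(g j : ℝ)| ≤ H ^ W) ∧
      ∀ j ≤ W, Q * x (n + j) = g j * (ρ ^ j * x n) := by
  induction W with
  | zero =>
    refine ⟨1, fun _ => 1, one_ne_zero, by simp, fun _ _ => one_ne_zero, by simp, ?_⟩
    intro j hj
    have : j = 0 := by omega
    subst this
    simp
  | succ W ih =>
    obtain ⟨Q, g, hQ, hQ1, hg0, hg1, hg2⟩ := ih (fun m h1 h2 => hx m h1 (by omega))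
    obtain ⟨p, q, hp, hq, hp1, hq1, hpq⟩ := hx (n + W) (by omega) (by omega)
    have hH0 : 0 ≤ H := by linarith
    have hb0 : 0 ≤ H ^ W := by positivity
    refine ⟨q * Q, fun j => if j = W + 1 then p * g W else q * g j, mul_ne_zero hq hQ, ?_, ?_, ?_, ?_⟩
    · push_cast
      rw [abs_mul, pow_succ, mul_comm]
      exact mul_le_mul hQ1 hq1 (abs_nonneg _) hb0
    · intro j hj
      by_cases h : j = W + 1
      · simp only [h, if_true]
        exact mul_ne_zero hp (hg0 W le_rfl)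
      · simp only [h, if_false]
        exact mul_ne_zero hq (hg0 j (by omega))
    · intro j hj
      by_cases h : j = W + 1
      · simp only [h, if_true]
        push_cast
        rw [abs_mul, pow_succ, mul_comm]
        exact mul_le_mul (hg1 W le_rfl) hp1 (abs_nonneg _) hb0
      · simp only [h, if_false]
        push_cast
        rw [abs_mul, pow_succ, mul_comm]
        exact mul_le_mul (hg1 j (by omega)) hq1 (abs_nonneg _) hb0
    · intro j hj
      by_cases h : j = W + 1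
      · subst h
        simp only [if_true]
        push_cast
        have h1 := hg2 W le_rfl
        have h2 : (q : ℝ) * Q * x (n + (W + 1)) = Q * (q * x (n + W + 1)) := by
          rw [← add_assoc]; ring
        rw [h2, hpq]
        calc (Q : ℝ) * (p * (ρ * x (n + W))) = p * ρ * (Q * x (n + W)) := by ring
          _ = _ := by rw [h1, pow_succ]; ring
      · simp only [h, if_false]
        push_cast
        have h1 := hg2 j (by omega)
        rw [mul_assoc, h1]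
        ring

theorem log_pi_lt : Real.log Real.pi < 1.16 := by
  rw [Real.log_lt_iff_lt_exp Real.pi_pos]
  have h1 := Real.exp_one_gt_d9
  have h2 := Real.quadratic_le_exp_of_nonneg (show (0 : ℝ) ≤ 0.16 by norm_num)
  have h3 : Real.exp 1.16 = Real.exp 1 * Real.exp 0.16 := by
    rw [← Real.exp_add]
    norm_num
  have h4 := Real.pi_lt_d2
  rw [h3]
  nlinarith [Real.exp_pos 0.16]

/-- one step of the recursions for `x` and `v`, with rational numbers of height at most `H` -/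
def Step {d : ℕ} (H : ℝ) (x : ℕ → ℝ) (v : ℕ → Fin d → ℝ) (m : ℕ) : Prop :=
  (∃ p q : ℤ, p ≠ 0 ∧ q ≠ 0 ∧ |(p : ℝ)| ≤ H ∧ |(q : ℝ)| ≤ H ∧
    q * x (m + 1) = p * (Real.pi * x m)) ∧
  ∃ (q : ℤ) (M : Fin d → Fin d → ℤ), q ≠ 0 ∧ |(q : ℝ)| ≤ H ∧ (∀ i j, |(M i j : ℝ)| ≤ H) ∧
    ∀ i, q * v (m + 1) i = ∑ j, M i j * v m j

theorem span (d h : ℕ) (δ : ℝ) (hδ : 0 < δ)
    (hh : 4 * (((d : ℝ) + 1) / δ + d) + 9 / 4 ≤ Real.log (2 * h + 1)) :
    ∃ κ : ℝ, 0 < κ ∧ ∃ T₀ : ℝ, ∀ (x : ℕ → ℝ) (v : ℕ → Fin d → ℝ) (n : ℕ) (T : ℝ), T₀ ≤ T →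
      |x n| = Real.exp T →
      (∀ m, n ≤ m → m < n + 2 * h → Step (Real.exp (κ * T)) x v m) →
      ∃ g ≤ h, ∀ (a b : ℤ) (c : Fin d → ℤ), b ≠ 0 → |(b : ℝ)| ≤ Real.exp (κ * T) →
        (∀ i, |(c i : ℝ)| ≤ Real.exp (κ * T)) →
        Real.exp (-(δ * T)) ≤ |a + b * x (n + 2 * g) + ∑ i, c i * v (n + 2 * g) i| := by
  have hd0 : (0 : ℝ) ≤ d := Nat.cast_nonneg d
  have hh0 : (0 : ℝ) ≤ h := Nat.cast_nonneg h
  have hpi := Real.pi_pos
  obtain ⟨θ, hθ⟩ : ∃ θ : ℝ, θ = δ / (d + 1) := ⟨_, rfl⟩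
  have hθ0 : 0 < θ := by rw [hθ]; positivity
  have hθδ : d * θ - δ = -θ := by
    rw [hθ]
    field_simp
    ring
  obtain ⟨ε, hε⟩ : ∃ ε : ℝ, ε = 0.97 * (θ / (1 + d * θ)) := ⟨_, rfl⟩
  have hε0 : 0 < ε := by rw [hε]; positivity
  have hεθ : ε * (1 + d * θ) = 0.97 * θ := by
    rw [hε]
    have : (1 : ℝ) + d * θ ≠ 0 := by positivity
    field_simp
  have hinv : ((d : ℝ) + 1) / δ + d = (1 + d * θ) / θ := by
    rw [hθ]
    field_simp
  rw [hinv] at hh
  -- the parameters satisfy the condition of `key`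
  obtain ⟨T₁, hkey⟩ := key ε hε0 h (by
    have h1 := log_pi_lt
    have h2 := Real.log_two_lt_d9
    have h3 : 4 * ((1 + d * θ) / θ) ≤ Real.log (2 * h + 1) - Real.log Real.pi - 1.01 := by linarith
    have h4 : ε * (4 * ((1 + d * θ) / θ)) = 3.88 := by
      have : ε * (4 * ((1 + d * θ) / θ)) = 4 * (ε * (1 + d * θ)) / θ := by ring
      rw [this, hεθ]
      field_simp
      norm_num
    have h5 := mul_le_mul_of_nonneg_left h3 hε0.le
    rw [h4] at h5
    linarith)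
  obtain ⟨κ, hκ⟩ : ∃ κ : ℝ, κ = min (0.01 * θ / ((1 + 2 * h) * (h + 2) * (1 + ε))) (1 / (4 * (h + 1))) :=
    ⟨_, rfl⟩
  have hκ0 : 0 < κ := by rw [hκ]; exact lt_min (by positivity) (by positivity)
  obtain ⟨c, hc⟩ : ∃ c : ℝ, c = κ * (1 + 2 * h) * (h + 2) := ⟨_, rfl⟩
  have hc0 : 0 < c := by rw [hc]; positivity
  have hcε : c * (1 + ε) ≤ 0.01 * θ := by
    have h1 : κ ≤ 0.01 * θ / ((1 + 2 * h) * (h + 2) * (1 + ε)) := by rw [hκ]; exact min_le_left _ _
    rw [le_div_iff₀ (by positivity)] at h1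
    rw [hc]
    linarith
  have hκh : κ * (2 * h) ≤ 1 / 2 := by
    have h1 : κ ≤ 1 / (4 * (h + 1)) := by rw [hκ]; exact min_le_right _ _
    rw [le_div_iff₀ (by positivity)] at h1
    nlinarith
  obtain ⟨C, hC⟩ : ∃ C : ℝ, C = 1 + 2 * d * (d * ((d : ℝ) + 1) ^ (2 * h)) := ⟨_, rfl⟩
  have hC0 : 0 < C := by rw [hC]; positivity
  refine ⟨κ, hκ0, max (max (2 * T₁) 1) (Real.log C / (0.02 * θ) + 1), ?_⟩
  intro x v n T hT hxT hstep
  have hT1 : 2 * T₁ ≤ T := (le_max_left _ _).trans ((le_max_left _ _).trans hT)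
  have hT2 : 1 ≤ T := (le_max_right _ _).trans ((le_max_left _ _).trans hT)
  have hT3 : Real.log C < 0.02 * θ * T := by
    have h1 := (le_max_right _ _).trans hT
    have h2 : Real.log C / (0.02 * θ) < T := by linarith
    rw [div_lt_iff₀ (by positivity)] at h2
    linarith
  have hT0 : 0 < T := by linarith
  obtain ⟨H, hH⟩ : ∃ H, H = Real.exp (κ * T) := ⟨_, rfl⟩
  have hH1 : 1 ≤ H := by rw [hH]; exact Real.one_le_exp (by positivity)
  rw [← hH] at hstep ⊢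
  obtain ⟨Q, g, hQ, hQ1, hg0, hg1, hg2⟩ := iterR Real.pi n H hH1 (2 * h)
    (fun m h1 h2 => (hstep m h1 h2).1)
  obtain ⟨Qv, G, hQv, hG1, hG2⟩ := Pool.Agent.T2H64.EN.iter n H hH1 (2 * h)
    (fun m h1 h2 => (hstep m h1 h2).2)
  by_contra hcon
  push Not at hcon
  choose! a b cf hb0 hb1 hcf hlt using hcon
  have hQ1' : (1 : ℝ) ≤ |(Q : ℝ)| := by
    have := Int.one_le_abs hQ
    rw [← Int.cast_abs]
    exact_mod_cast this
  have hQ0 : (Q : ℝ) ≠ 0 := by exact_mod_cast hQ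
  have hQv0 : (Qv : ℝ) ≠ 0 := by exact_mod_cast hQv
  -- simultaneous approximation
  obtain ⟨τ, hτ⟩ : ∃ τ : Fin d → ℝ, τ = fun k => v n k / Qv := ⟨_, rfl⟩
  obtain ⟨K, hK⟩ : ∃ K, K = ⌊Real.exp (θ * T)⌋₊ := ⟨_, rfl⟩
  have hexp1 : 1 ≤ Real.exp (θ * T) := Real.one_le_exp (by positivity)
  have hK1 : 1 ≤ K := by rw [hK]; exact Nat.le_floor (by simpa using hexp1)
  have hKr : (1 : ℝ) ≤ K := by exact_mod_cast hK1
  have hKu : (K : ℝ) ≤ Real.exp (θ * T) := by rw [hK]; exact Nat.floor_le (by linarith)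
  have hKl : Real.exp (θ * T) ≤ 2 * K := by
    have : Real.exp (θ * T) < K + 1 := by rw [hK]; exact Nat.lt_floor_add_one _
    linarith
  have hKinv : 1 / (K : ℝ) ≤ 2 * Real.exp (-(θ * T)) := by
    rw [Real.exp_neg, ← div_eq_mul_inv, div_le_div_iff₀ (by linarith) (Real.exp_pos _)]
    linarith
  obtain ⟨q, hq1, hqK, p, hp⟩ := Pool.Agent.TH373.EN.dirichlet τ K hK1
  have hqr : (1 : ℝ) ≤ q := by exact_mod_cast hq1
  have hqT : (q : ℝ) ≤ Real.exp (d * (θ * T)) := by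
    calc (q : ℝ) ≤ (K : ℝ) ^ d := by exact_mod_cast hqK
      _ ≤ Real.exp (θ * T) ^ d := pow_le_pow_left₀ (by positivity) hKu d
      _ = _ := by rw [← Real.exp_nat_mul]
  -- the multipliers
  obtain ⟨R, hR⟩ : ∃ R : ℝ, R = Real.exp (κ * (1 + 2 * h) * T) := ⟨_, rfl⟩
  have hHR : H * H ^ (2 * h) = R := by
    rw [← pow_succ', hH, ← Real.exp_nat_mul, hR]
    congr 1
    push_cast
    ring
  have hR1 : 1 ≤ R := by rw [hR]; exact Real.one_le_exp (by positivity)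
  have hbb : ∀ g' ≤ h, |((b g' * g (2 * g') : ℤ) : ℝ)| ≤ R := by
    intro g' hg'
    push_cast
    rw [abs_mul, ← hHR]
    exact mul_le_mul (hb1 g' hg') (hg1 _ (by omega)) (abs_nonneg _) (by linarith)
  have hbb0 : ∀ g' ≤ h, b g' * g (2 * g') ≠ 0 := fun g' hg' =>
    mul_ne_zero (hb0 g' hg') (hg0 _ (by omega))
  obtain ⟨β, hβ⟩ : ∃ β : ℕ → ℕ, β = fun g' => (b g' * g (2 * g')).natAbs := ⟨_, rfl⟩
  have hβ1 : ∀ g' ≤ h, 1 ≤ β g' := by
    intro g' hg'
    rw [hβ]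
    exact Int.natAbs_pos.2 (hbb0 g' hg')
  have hβabs : ∀ g', ((β g' : ℕ) : ℝ) = |((b g' * g (2 * g') : ℤ) : ℝ)| := by
    intro g'
    rw [hβ, ← Int.cast_abs, Int.abs_eq_natAbs]
    simp
  obtain ⟨B, hB⟩ : ∃ B, B = ∏ g' ∈ range (h + 1), β g' := ⟨_, rfl⟩
  have hB1 : 1 ≤ B := by
    rw [hB]
    have h1 : ∀ g' ∈ range (h + 1), 0 < β g' := fun g' hg' =>
      hβ1 g' (by rw [mem_range] at hg'; omega)
    exact Finset.prod_pos h1
  have hBr : (1 : ℝ) ≤ B := by exact_mod_cast hB1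
  have hBR : (B : ℝ) ≤ R ^ (h + 1) := by
    rw [hB]
    push_cast
    calc ∏ g' ∈ range (h + 1), (β g' : ℝ) ≤ ∏ g' ∈ range (h + 1), R := by
          refine Finset.prod_le_prod (fun g' _ => Nat.cast_nonneg _) fun g' hg' => ?_
          rw [hβabs]
          exact hbb g' (by rw [mem_range] at hg'; omega)
      _ = R ^ (h + 1) := by rw [prod_const, card_range]
  -- the number
  obtain ⟨ξ, hξ⟩ : ∃ ξ : ℝ, ξ = x n / Q := ⟨_, rfl⟩
  have hξabs : |ξ| = Real.exp T / |(Q : ℝ)| := by rw [hξ, abs_div, hxT]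
  have hξ0 : 0 < |ξ| := by rw [hξabs]; positivity
  obtain ⟨T', hT'⟩ : ∃ T', T' = Real.log (q * B * |ξ|) := ⟨_, rfl⟩
  have hexpT' : Real.exp T' = q * B * |ξ| := by
    rw [hT', Real.exp_log (by positivity)]
  have hRh : R ^ (h + 2) = Real.exp (c * T) := by
    rw [hR, ← Real.exp_nat_mul, hc]
    congr 1
    push_cast
    ring
  have hRh1 : R ^ (h + 1) ≤ Real.exp (c * T) := by
    rw [← hRh]
    exact pow_le_pow_right₀ hR1 (by omega)
  have hTl : T / 2 ≤ T' := by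
    rw [← Real.exp_le_exp, hexpT', hξabs]
    have h1 : |(Q : ℝ)| ≤ Real.exp (κ * (2 * h) * T) := by
      refine hQ1.trans (le_of_eq ?_)
      rw [hH, ← Real.exp_nat_mul]
      congr 1
      push_cast
      ring
    have h2 : |(Q : ℝ)| ≤ Real.exp (T / 2) := by
      refine h1.trans (Real.exp_le_exp.2 ?_)
      have := mul_le_mul_of_nonneg_right hκh hT0.le
      linarith
    have h3 : Real.exp (T / 2) ≤ Real.exp T / |(Q : ℝ)| := by
      rw [le_div_iff₀ (by linarith)]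
      calc Real.exp (T / 2) * |(Q : ℝ)| ≤ Real.exp (T / 2) * Real.exp (T / 2) := by gcongr
        _ = Real.exp T := by rw [← Real.exp_add]; congr 1; ring
    refine h3.trans ?_
    have h4 : (1 : ℝ) ≤ q * B := one_le_mul_of_one_le_of_one_le hqr hBr
    exact le_mul_of_one_le_left (by positivity) h4
  have hTu : T' ≤ (1 + d * θ + c) * T := by
    rw [← Real.exp_le_exp, hexpT', hξabs]
    have h1 : Real.exp T / |(Q : ℝ)| ≤ Real.exp T := div_le_self (Real.exp_pos _).le hQ1'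
    calc (q : ℝ) * B * (Real.exp T / |(Q : ℝ)|)
        ≤ Real.exp (d * (θ * T)) * Real.exp (c * T) * Real.exp T := by
          gcongr
          exact hBR.trans hRh1
      _ = _ := by
          rw [← Real.exp_add, ← Real.exp_add]
          congr 1
          ring
  obtain ⟨g₀, hg₀, hfar⟩ := hkey T' (by linarith)
  -- closeness at `g₀`
  obtain ⟨B', hB'⟩ : ∃ B', B' = ∏ g' ∈ (range (h + 1)).erase g₀, β g' := ⟨_, rfl⟩
  have hBB' : (β g₀ : ℝ) * B' = B := by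
    have := Finset.mul_prod_erase (range (h + 1)) β (mem_range.2 (Nat.lt_succ_of_le hg₀))
    rw [hB, hB', ← this]
    push_cast
    rfl
  have hB'R : (B' : ℝ) ≤ R ^ (h + 1) := by
    have h1 : (1 : ℝ) ≤ β g₀ := by exact_mod_cast hβ1 g₀ hg₀
    have h2 : (0 : ℝ) ≤ B' := Nat.cast_nonneg _
    calc (B' : ℝ) ≤ β g₀ * B' := le_mul_of_one_le_left h2 h1
      _ = B := hBB'
      _ ≤ _ := hBR
  -- signs
  obtain ⟨s1, hs1, hs1'⟩ : ∃ s1 : ℤ, |(s1 : ℝ)| = 1 ∧
      (β g₀ : ℝ) = s1 * ((b g₀ * g (2 * g₀) : ℤ) : ℝ) := by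
    rcases abs_choice (((b g₀ * g (2 * g₀) : ℤ) : ℝ)) with h1 | h1
    · exact ⟨1, by simp, by rw [hβabs, h1]; simp⟩
    · exact ⟨-1, by simp, by rw [hβabs, h1]; simp⟩
  obtain ⟨s2, hs2, hs2'⟩ : ∃ s2 : ℤ, |(s2 : ℝ)| = 1 ∧ |ξ| = s2 * ξ := by
    rcases abs_choice ξ with h1 | h1
    · exact ⟨1, by simp, by rw [h1]; simp⟩
    · exact ⟨-1, by simp, by rw [h1]; simp⟩
  obtain ⟨cc', hcc'⟩ : ∃ cc' : Fin d → ℤ, cc' = fun k => ∑ i, cf g₀ i * G (2 * g₀) i k := ⟨_, rfl⟩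
  have hccb : ∀ k, |(cc' k : ℝ)| ≤ d * (((d : ℝ) + 1) ^ (2 * h) * R) := by
    intro k
    rw [hcc']
    push_cast
    refine (Finset.abs_sum_le_sum_abs _ _).trans ?_
    have h1 : ∀ i ∈ (Finset.univ : Finset (Fin d)), |(cf g₀ i : ℝ) * G (2 * g₀) i k| ≤
        ((d : ℝ) + 1) ^ (2 * h) * R := by
      intro i _
      rw [abs_mul]
      refine (mul_le_mul (hcf g₀ hg₀ i) (hG1 _ (by omega) i k) (abs_nonneg _) (by linarith)).trans
        (le_of_eq ?_)
      rw [← hHR, mul_pow]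
      ring
    refine (Finset.sum_le_sum h1).trans ?_
    rw [Finset.sum_const, Finset.card_univ, Fintype.card_fin, nsmul_eq_mul]
  have hlt0 := hlt g₀ hg₀
  have e1 : (b g₀ : ℝ) * x (n + 2 * g₀) =
      ((b g₀ * g (2 * g₀) : ℤ) : ℝ) * (ξ * Real.pi ^ (2 * g₀)) := by
    have h1 := hg2 (2 * g₀) (by omega)
    have h3 : x (n + 2 * g₀) = g (2 * g₀) * (Real.pi ^ (2 * g₀) * x n) / Q := by
      rw [eq_div_iff hQ0, mul_comm]
      exact h1
    rw [h3, hξ]
    push_cast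
    ring
  have e2 : ∑ i, (cf g₀ i : ℝ) * v (n + 2 * g₀) i = ∑ k, (cc' k : ℝ) * τ k := by
    have h1 : ∀ i, (cf g₀ i : ℝ) * v (n + 2 * g₀) i =
        ∑ k, (cf g₀ i : ℝ) * (G (2 * g₀) i k) * τ k := by
      intro i
      have h2 : v (n + 2 * g₀) i = (∑ k, G (2 * g₀) i k * v n k) / Qv := by
        rw [eq_div_iff hQv0, mul_comm]
        exact hG2 (2 * g₀) (by omega) i
      rw [h2, Finset.sum_div, Finset.mul_sum]
      refine Finset.sum_congr rfl fun k _ => ?_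
      rw [hτ]
      ring
    rw [Finset.sum_congr rfl fun i _ => h1 i, Finset.sum_comm]
    refine Finset.sum_congr rfl fun k _ => ?_
    rw [hcc']
    push_cast
    rw [Finset.sum_mul]
  rw [e1, e2] at hlt0
  obtain ⟨Z, hZ⟩ : ∃ Z : ℤ, Z = q * a g₀ + ∑ k, cc' k * p k := ⟨_, rfl⟩
  have hnear : |q * (((b g₀ * g (2 * g₀) : ℤ) : ℝ) * (ξ * Real.pi ^ (2 * g₀))) + Z| ≤
      R * C * Real.exp (-(θ * T)) := by
    have h1 : q * (((b g₀ * g (2 * g₀) : ℤ) : ℝ) * (ξ * Real.pi ^ (2 * g₀))) + Z =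
        q * (a g₀ + ((b g₀ * g (2 * g₀) : ℤ) : ℝ) * (ξ * Real.pi ^ (2 * g₀)) + ∑ k, (cc' k : ℝ) * τ k) -
        ∑ k, (cc' k : ℝ) * (q * τ k - p k) := by
      have h2 : ∑ k, (cc' k : ℝ) * (q * τ k - p k) =
          q * ∑ k, (cc' k : ℝ) * τ k - ∑ k, (cc' k : ℝ) * p k := by
        rw [Finset.mul_sum, ← Finset.sum_sub_distrib]
        refine Finset.sum_congr rfl fun k _ => ?_
        ring
      rw [h2, hZ]
      push_cast
      ring
    rw [h1]
    refine (abs_sub _ _).trans ?_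
    have h3 : |(q : ℝ) * (a g₀ + ((b g₀ * g (2 * g₀) : ℤ) : ℝ) * (ξ * Real.pi ^ (2 * g₀)) +
        ∑ k, (cc' k : ℝ) * τ k)| ≤ Real.exp (-(θ * T)) := by
      rw [abs_mul, abs_of_pos (show (0 : ℝ) < q by linarith)]
      calc (q : ℝ) * _ ≤ Real.exp (d * (θ * T)) * Real.exp (-(δ * T)) :=
            mul_le_mul hqT hlt0.le (abs_nonneg _) (Real.exp_pos _).le
        _ = Real.exp (-(θ * T)) := by
            rw [← Real.exp_add]
            congr 1
            have : (d : ℝ) * (θ * T) + -(δ * T) = (d * θ - δ) * T := by ring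
            rw [this, hθδ]
            ring
    have h4 : |∑ k, (cc' k : ℝ) * (q * τ k - p k)| ≤
        d * (d * (((d : ℝ) + 1) ^ (2 * h) * R) * (2 * Real.exp (-(θ * T)))) := by
      refine (Finset.abs_sum_le_sum_abs _ _).trans ?_
      have h5 : ∀ k ∈ (Finset.univ : Finset (Fin d)), |(cc' k : ℝ) * (q * τ k - p k)| ≤
          d * (((d : ℝ) + 1) ^ (2 * h) * R) * (2 * Real.exp (-(θ * T))) := by
        intro k _
        rw [abs_mul]
        exact mul_le_mul (hccb k) ((hp k).le.trans hKinv) (abs_nonneg _) (by positivity)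
      refine (Finset.sum_le_sum h5).trans ?_
      rw [Finset.sum_const, Finset.card_univ, Fintype.card_fin, nsmul_eq_mul]
    refine (add_le_add h3 h4).trans ?_
    have hE := Real.exp_pos (-(θ * T))
    have e3 : R * C * Real.exp (-(θ * T)) = R * Real.exp (-(θ * T)) +
        d * (d * (((d : ℝ) + 1) ^ (2 * h) * R) * (2 * Real.exp (-(θ * T)))) := by
      rw [hC]
      ring
    rw [e3]
    have h6 := le_mul_of_one_le_left hE.le hR1
    linarith
  have hB'0 : (0 : ℝ) ≤ B' := Nat.cast_nonneg _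
  have hfin := hfar (-(B' * s1 * s2 * Z))
  have e4 : Real.exp T' * Real.pi ^ (2 * g₀) - ((-(B' * s1 * s2 * Z) : ℤ) : ℝ) =
      B' * s1 * s2 * (q * (((b g₀ * g (2 * g₀) : ℤ) : ℝ) * (ξ * Real.pi ^ (2 * g₀))) + Z) := by
    rw [hexpT', ← hBB', hs1', hs2']
    push_cast
    ring
  rw [e4, abs_mul, abs_mul, abs_mul, hs1, hs2, abs_of_nonneg hB'0, mul_one, mul_one] at hfin
  have h7 : Real.exp (-(ε * T')) ≤ Real.exp (Real.log C + (c - θ) * T) := by
    refine hfin.trans ?_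
    calc (B' : ℝ) * _ ≤ R ^ (h + 1) * (R * C * Real.exp (-(θ * T))) :=
          mul_le_mul hB'R hnear (abs_nonneg _) (by positivity)
      _ = C * (R ^ (h + 2) * Real.exp (-(θ * T))) := by ring
      _ = _ := by
          rw [hRh, ← Real.exp_add, Real.exp_add (Real.log C), Real.exp_log hC0]
          congr 2
          ring
  rw [Real.exp_le_exp] at h7
  have h8 : ε * T' ≤ ε * ((1 + d * θ + c) * T) := mul_le_mul_of_nonneg_left hTu hε0.le
  have h9 : ε * ((1 + d * θ + c) * T) = (0.97 * θ + ε * c) * T := by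
    rw [← hεθ]
    ring
  have h10 : c * (1 + ε) * T ≤ 0.01 * θ * T := mul_le_mul_of_nonneg_right hcε hT0.le
  have h11 : c * (1 + ε) * T = c * T + ε * c * T := by ring
  rw [h9] at h8
  nlinarith

end Pool.Agent.T2H64.PI
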